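import Pool.Agent.H18.XU.UNA
import Pool.Agent.H66.XP.TI

/-!
# Unambiguous alternation: the oracles of the construction are unambiguous
-/

set_option autoImplicit false

namespace Pool.Agent.H18.XU

open Finset Pool.Agent.H66.AV Pool.Agent.H6.NB Pool.Agent.H70.OQ Pool.Agent.H70.EH
open Pool.Agent.H70.EI Pool.Agent.H78.XQ Pool.Agent.H66.XP
open Pool.Agent.H66.IP (Local ins sp dm IsZ scl)

/-- The oracles of the construction are unambiguous on all tables below `M`. -/
theorem una_oo (hGZX : T_GZX) (hOVL : Pool.Agent.H66.AV.T_OVL) (V : ℕ → Exq)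
    (E : Finset (ℕ × List Bool))
    (O : (∀ p : {a // a ∈ E}, Cp V p.1) → (List Bool → Bool) → List Bool → Bool)
    (hO : IsZ (dm (lo V)) E O) (P : ∀ p : {a // a ∈ E}, Cp V p.1) (M : ℕ) (z : Za M)
    (k : ℕ) (hk : k < M) (x : List Bool) (hx : x.length < M) :
    Una (O P (gzx M z)) (k + 1) x.length (false :: hdr k x) := by
  obtain ⟨n, hn⟩ : ∃ n, x.length = n := ⟨_, rfl⟩
  rw [hn] at hx ⊢
  obtain ⟨y, rfl⟩ := NDV.exists_ofFn hn
  set t : Fin M × Fin M := (⟨k, hk⟩, ⟨n, hx⟩) with ht
  have h2 : ovl n k (gzx M z) (tbl (z t)) = gzx M z := by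
    have h3 := hGZX.1 M z t (z t)
    rw [Function.update_eq_self] at h3
    exact h3.symm
  refine una_tbl n k (z t) y _ fun q => ?_
  have h4 := ((hOVL n k (gzx M z)).2.2.2 (lo V) E O hO P).2 (tbl (z t)) y q
  rw [h2] at h4
  exact h4

/-- Unambiguity for all levels and lengths at most `i` depends on finitely many strings. -/
theorem una_loc (i : ℕ) : ∃ L, ∀ O O' : List Bool → Bool, (∀ w, w.length ≤ L → O w = O' w) →
    (∀ k ≤ i, ∀ x : List Bool, x.length ≤ i → Una O (k + 1) x.length (false :: hdr k x)) →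
    ∀ k ≤ i, ∀ x : List Bool, x.length ≤ i → Una O' (k + 1) x.length (false :: hdr k x) := by
  refine ⟨(i + i + 2) + 2 ^ (i + 1) * i, fun O O' h hU k hk x hx => ?_⟩
  refine una_congr O O' (k + 1) x.length _ (false :: hdr k x) ?_ h (hU k hk x hx)
  have e0 : (false :: hdr k x).length = k + x.length + 2 := by
    unfold hdr
    rw [List.length_cons, List.length_append, List.length_replicate, List.length_cons]
    omega
  have h1 : (2 ^ (k + 1) - 1) * x.length ≤ 2 ^ (i + 1) * i :=
    Nat.mul_le_mul ((Nat.sub_le _ _).trans (Nat.pow_le_pow_right (by norm_num) (by omega))) hx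
  rw [e0]
  omega

end Pool.Agent.H18.XU
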