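import Pool.Agent.H66.AV.Stmt

/-!
# Unambiguous alternation: definition
-/

set_option autoImplicit false

namespace Pool.Agent.H18.XU

open Pool.Agent.H70.OQ (Nd)

/-- The game of `k` moves of the lengths `l, 2 l, 4 l, …` which starts at the string `w` and defines
`Nd O k l w` is unambiguous: in every position of the game, whatever has been played before, at most one
move leads to a position which is won by the player who makes this move. -/
def Una (O : List Bool → Bool) : ℕ → ℕ → List Bool → Prop
  | 0, _, _ => True
  | k + 1, l, w => (∀ v v' : List Bool, v.length = l → v'.length = l → ¬ Nd O k (2 * l) (w ++ v) →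
      ¬ Nd O k (2 * l) (w ++ v') → v = v') ∧
    ∀ v : List Bool, v.length = l → Una O k (2 * l) (w ++ v)

end Pool.Agent.H18.XU
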